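import Mathlib
import Pool.Agent.Lib.MP_1b26ca_an.Defs
import Pool.Agent.Lib.MP_1b26ca_an.Neg
import Pool.Agent.Lib.MP_1b26ca_an.Comb
import Pool.Agent.Lib.MP_1b26ca_an.Pos

/-!
# Interpolation sets for nilsequences of consecutive steps

For every `k ≥ 1` there is a `(k + 1)`-step interpolation set which is not a `k`-step
interpolation set.

* The set `E = A ∪ B` is built in `Comb` by induction on `k`. It consists of very sparse dilated
  and translated copies `b_n + t_n s` (with `s` in the set of the previous level). For every real
  function `φ` on `E` there is `α` with `α h ^ (k + 1)` within `1 / 8` of `φ h` modulo `1` for all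
  `h ∈ E` (nested choice of `α`), and for every finite colouring of `ℕ` there is a `k`-dimensional
  cube `n + ω · h` and a shift `T` such that the colours of `m` and `m + T` agree at all vertices
  `m` of the cube different from the top one, while the top vertex is in `A` and its shift by `T`
  is in `B` (van der Waerden).
* `Pos`, `NilG`: interpolation by sums of triangle waves of `α n ^ (k + 1)`, which come from
  the nilpotent Lie group `ℝ ⋉ (polynomials of degree < k + 1)`.
* `HK`, `Comm`, `Noeth`, `Rigid`, `NFilt`, `PRec`, `LieNSS`, `LieRed`, `Neg`: in a `k`-step
  nilsystem, if two points of the orbit are close at all vertices of a `k`-dimensional cube but the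
  top one, then they are close at the top one. No rationality or connectedness is assumed; the
  proof uses a saturated filtration made of the upper central series.
-/

set_option autoImplicit false

namespace Pool.Agent.Results.MP_1b26ca_an.StepSeparation

open Pool.Agent.Lib.MP_1b26ca_an

/-- For every `k ≥ 1` there is a `(k + 1)`-step interpolation set that is not a `k`-step
interpolation set. -/
theorem result : ∀ k : ℕ, 1 ≤ k →
    ∃ E : Set ℕ+, IsInterpolationSet (k + 1) E ∧ ¬ IsInterpolationSet k E := by
  intro k _
  obtain ⟨A, B, hAB, h0, hInt, hConf⟩ := comb k (1 / 8) (by norm_num)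
  exact ⟨{m : ℕ+ | (m : ℕ) ∈ A ∪ B}, interp (by omega) hInt,
    not_interp Set.subset_union_left Set.subset_union_right hAB h0 hConf.conf⟩

end Pool.Agent.Results.MP_1b26ca_an.StepSeparation
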